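import Pool.Agent.U845.XM.Stm
import Pool.Agent.U115.GE.Loc

/-!
# Project XM (helper845), package A: the primes three and five
-/

set_option autoImplicit false
set_option linter.style.haveILetI false
set_option linter.unusedVariables false
set_option linter.unusedSimpArgs false

namespace Pool.Agent.U480.XM

open Pool.Agent.U115.GE (SelSet lsol_of_qs)
open Pool.Agent.U115.TP (LSol toZMod_eq_zero dvd_int)
open Pool.Agent.U845.XM (S_A)

theorem key5 : ∀ D n M W E : ZMod 5, D ≠ 0 → (n = 2 ∨ n = 3) →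
    D * M ^ 2 = 0 * D ^ 2 * W ^ 4 - 41 * n * D * W ^ 2 * E ^ 2 + 80 * n ^ 2 * E ^ 4 →
    M = 0 ∧ (W = 0 ∨ E = 0) := by decide

theorem key5' : ∀ n E : ZMod 5, (n = 2 ∨ n = 3) → 16 * n ^ 2 * E ^ 4 = 0 → E = 0 := by decide

theorem key3 : ∀ D n M W E : ZMod 3, D ≠ 0 → n = 2 →
    D * M ^ 2 = 0 * D ^ 2 * W ^ 4 + 82 * n * D * W ^ 2 * E ^ 2 + 27 * n ^ 2 * E ^ 4 →
    M = 0 ∧ (W = 0 ∨ E = 0) := by decide

theorem key3' : ∀ D n M W E : ZMod 3, D ≠ 0 → n = 2 → E ≠ 0 →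
    D * M ^ 2 = 27 * D ^ 2 * W ^ 4 + 82 * n * D * W ^ 2 * E ^ 2 + 3 * n ^ 2 * E ^ 4 →
    M = 0 ∧ W = 0 := by decide

theorem key3'' : ∀ n E : ZMod 3, n = 2 → n ^ 2 * E ^ 4 = 0 → E = 0 := by decide

/-- the prime five -/
theorem five [Fact (Nat.Prime 5)] {n : ℕ} (hn : n % 5 = 2 ∨ n % 5 = 3) {d : ℤ}
    (hd : Squarefree d) (h : LSol (-41 * n) (400 * n ^ 2) d 5) : ¬ (5 : ℤ) ∣ d := by
  rintro ⟨d1, rfl⟩
  obtain ⟨w, e, N, hwe, h⟩ := h
  have hP := PadicInt.prime_p (p := 5)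
  have hl0 : ((5 : ℕ) : ℤ_[5]) ≠ 0 := hP.ne_zero
  have nd1 : ¬ ((5 : ℕ) : ℤ) ∣ d1 := by
    rintro ⟨k, hk⟩
    have := hd 5 ⟨k, by rw [hk]; push_cast; ring⟩
    rw [Int.isUnit_iff] at this
    omega
  have hD : (d1 : ZMod 5) ≠ 0 := by
    rw [Ne, ZMod.intCast_zmod_eq_zero_iff_dvd]; exact nd1
  have hn5 : (n : ZMod 5) = 2 ∨ (n : ZMod 5) = 3 := by
    rcases hn with hn | hn
    · left
      have := (ZMod.natCast_eq_natCast_iff' n 2 5).2 (by omega)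
      exact_mod_cast this
    · right
      have := (ZMod.natCast_eq_natCast_iff' n 3 5).2 (by omega)
      exact_mod_cast this
  push_cast at h
  have h1 : (d1 : ℤ_[5]) * N ^ 2 = ((5 : ℕ) : ℤ_[5]) * d1 ^ 2 * w ^ 4 - 41 * n * d1 * w ^ 2 * e ^ 2 +
      80 * n ^ 2 * e ^ 4 := by
    apply mul_left_cancel₀ hl0
    push_cast
    linear_combination h
  have h2 := congrArg (PadicInt.toZMod (p := 5)) h1
  simp only [map_mul, map_add, map_sub, map_pow, map_intCast, map_natCast, map_ofNat] at h2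
  rw [ZMod.natCast_self] at h2
  obtain ⟨hM, hWE⟩ := key5 _ _ _ _ _ hD hn5 h2
  obtain ⟨N1, rfl⟩ := toZMod_eq_zero.1 hM
  rcases hWE with hW | hE
  · obtain ⟨w1, rfl⟩ := toZMod_eq_zero.1 hW
    have h3 : (16 : ℤ_[5]) * n ^ 2 * e ^ 4 = ((5 : ℕ) : ℤ_[5]) * (d1 * N1 ^ 2 -
        125 * d1 ^ 2 * w1 ^ 4 + 41 * n * d1 * w1 ^ 2 * e ^ 2) := by
      apply mul_left_cancel₀ hl0
      push_cast at h1 ⊢
      linear_combination -h1
    have h4 := congrArg (PadicInt.toZMod (p := 5)) h3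
    simp only [map_mul, map_add, map_sub, map_pow, map_intCast, map_natCast, map_ofNat] at h4
    rw [ZMod.natCast_self, zero_mul] at h4
    exact hwe ⟨Dvd.intro _ rfl, toZMod_eq_zero.1 (key5' _ _ hn5 h4)⟩
  · obtain ⟨e1, rfl⟩ := toZMod_eq_zero.1 hE
    have h3 : (d1 : ℤ_[5]) ^ 2 * w ^ 4 = ((5 : ℕ) : ℤ_[5]) * (d1 * N1 ^ 2 +
        41 * n * d1 * w ^ 2 * e1 ^ 2 - 2000 * n ^ 2 * e1 ^ 4) := by
      apply mul_left_cancel₀ hl0
      push_cast at h1 ⊢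
      linear_combination -h1
    have h4 := congrArg (PadicInt.toZMod (p := 5)) h3
    simp only [map_mul, map_add, map_sub, map_pow, map_intCast, map_natCast, map_ofNat] at h4
    rw [ZMod.natCast_self, zero_mul] at h4
    have h5 : PadicInt.toZMod w = 0 :=
      (pow_eq_zero_iff (by norm_num)).1 ((mul_eq_zero.1 h4).resolve_left (pow_ne_zero 2 hD))
    exact hwe ⟨toZMod_eq_zero.1 h5, Dvd.intro _ rfl⟩

/-- the prime three -/
theorem three [Fact (Nat.Prime 3)] {n : ℕ} (hn : n % 3 = 2) {d : ℤ}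
    (hd : Squarefree d) (h : LSol (82 * n) (81 * n ^ 2) d 3) : ¬ (3 : ℤ) ∣ d := by
  rintro ⟨d1, rfl⟩
  obtain ⟨w, e, N, hwe, h⟩ := h
  have hP := PadicInt.prime_p (p := 3)
  have hl0 : ((3 : ℕ) : ℤ_[3]) ≠ 0 := hP.ne_zero
  have nd1 : ¬ ((3 : ℕ) : ℤ) ∣ d1 := by
    rintro ⟨k, hk⟩
    have := hd 3 ⟨k, by rw [hk]; push_cast; ring⟩
    rw [Int.isUnit_iff] at this
    omega
  have hD : (d1 : ZMod 3) ≠ 0 := by
    rw [Ne, ZMod.intCast_zmod_eq_zero_iff_dvd]; exact nd1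
  have hn3 : (n : ZMod 3) = 2 := by
    have := (ZMod.natCast_eq_natCast_iff' n 2 3).2 (by omega)
    exact_mod_cast this
  push_cast at h
  have h1 : (d1 : ℤ_[3]) * N ^ 2 = ((3 : ℕ) : ℤ_[3]) * d1 ^ 2 * w ^ 4 + 82 * n * d1 * w ^ 2 * e ^ 2 +
      27 * n ^ 2 * e ^ 4 := by
    apply mul_left_cancel₀ hl0
    push_cast
    linear_combination h
  have h2 := congrArg (PadicInt.toZMod (p := 3)) h1
  simp only [map_mul, map_add, map_sub, map_pow, map_intCast, map_natCast, map_ofNat] at h2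
  rw [ZMod.natCast_self] at h2
  obtain ⟨hM, hWE⟩ := key3 _ _ _ _ _ hD hn3 h2
  obtain ⟨N1, rfl⟩ := toZMod_eq_zero.1 hM
  rcases hWE with hW | hE
  · obtain ⟨w1, rfl⟩ := toZMod_eq_zero.1 hW
    have hE0 : PadicInt.toZMod e ≠ 0 := fun hE => hwe ⟨Dvd.intro _ rfl, toZMod_eq_zero.1 hE⟩
    have h3 : (d1 : ℤ_[3]) * N1 ^ 2 = 27 * d1 ^ 2 * w1 ^ 4 + 82 * n * d1 * w1 ^ 2 * e ^ 2 +
        3 * n ^ 2 * e ^ 4 := by
      apply mul_left_cancel₀ (pow_ne_zero 2 hl0)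
      push_cast at h1 ⊢
      linear_combination h1
    have h4 := congrArg (PadicInt.toZMod (p := 3)) h3
    simp only [map_mul, map_add, map_sub, map_pow, map_intCast, map_natCast, map_ofNat] at h4
    obtain ⟨hM1, hW1⟩ := key3' _ _ _ _ _ hD hn3 hE0 h4
    obtain ⟨N2, rfl⟩ := toZMod_eq_zero.1 hM1
    obtain ⟨w2, rfl⟩ := toZMod_eq_zero.1 hW1
    have h5 : (n : ℤ_[3]) ^ 2 * e ^ 4 = ((3 : ℕ) : ℤ_[3]) * (d1 * N2 ^ 2 -
        243 * d1 ^ 2 * w2 ^ 4 - 82 * n * d1 * w2 ^ 2 * e ^ 2) := by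
      apply mul_left_cancel₀ hl0
      push_cast at h3 ⊢
      linear_combination -h3
    have h6 := congrArg (PadicInt.toZMod (p := 3)) h5
    simp only [map_mul, map_add, map_sub, map_pow, map_intCast, map_natCast, map_ofNat] at h6
    rw [ZMod.natCast_self, zero_mul] at h6
    exact hE0 (key3'' _ _ hn3 h6)
  · obtain ⟨e1, rfl⟩ := toZMod_eq_zero.1 hE
    have h3 : (d1 : ℤ_[3]) ^ 2 * w ^ 4 = ((3 : ℕ) : ℤ_[3]) * (d1 * N1 ^ 2 -
        82 * n * d1 * w ^ 2 * e1 ^ 2 - 243 * n ^ 2 * e1 ^ 4) := by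
      apply mul_left_cancel₀ hl0
      push_cast at h1 ⊢
      linear_combination -h1
    have h4 := congrArg (PadicInt.toZMod (p := 3)) h3
    simp only [map_mul, map_add, map_sub, map_pow, map_intCast, map_natCast, map_ofNat] at h4
    rw [ZMod.natCast_self, zero_mul] at h4
    have h5 : PadicInt.toZMod w = 0 :=
      (pow_eq_zero_iff (by norm_num)).1 ((mul_eq_zero.1 h4).resolve_left (pow_ne_zero 2 hD))
    exact hwe ⟨toZMod_eq_zero.1 h5, Dvd.intro _ rfl⟩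

theorem t_A : S_A := by
  intro n hn
  haveI : Fact (Nat.Prime 5) := ⟨by norm_num⟩
  haveI : Fact (Nat.Prime 3) := ⟨by norm_num⟩
  exact ⟨fun d hd h5 => five h5 hd.1 (lsol_of_qs hd.1 (hd.2.2 5)),
    fun d hd h3 => three h3 hd.1 (lsol_of_qs hd.1 (hd.2.2 3))⟩

end Pool.Agent.U480.XM
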